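import Pool.Agent.Helper79.TLN.Final
import Pool.Agent.Helper79.TL.Tae5
import Pool.Agent.Helper14.TL7.Core
import Pool.Agent.Helper79.THE.Fin
import Pool.Agent.Helper79.THE.Tae7
import Pool.Agent.Helper79.THE.Tae3
import Pool.Agent.Helper79.TKE.Fin
import Pool.Agent.Helper79.TKE.Tae7
import Pool.Agent.Helper79.T7E.Fin
import Pool.Agent.Helper79.T7E.Tae5
import Pool.Agent.Helper79.T5E.Fin
import Pool.Agent.Helper79.T5E.Tae3
import Pool.Agent.Helper79.PE.Fin
import Pool.Agent.Helper79.PE.Tae11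
import Pool.Agent.Helper79.PE.Tae13

/-!
# Central values of the newforms of every even weight `k ≥ 4` and level `p^n`, `p ≤ 13`, `4 p^n`, `p = 5, 7`, or `q p^n` with `f | W_q = f` for some pairs `(q, p)`
-/

set_option autoImplicit false

namespace Pool.Agent.Results.MP_3c9520_nt.AllWeightsPrimePowers

open Pool.Agent.Helper14.CV (G0)
open Pool.Agent.Helper14.WK Pool.Agent.Helper28.WK Pool.Agent.Helper28.TL
open Pool.Agent.Helper28.TH (ALPlus)

/-- Let `k ≥ 4` be even and let `f` be a newform of weight `k`, level `N` and trivial character (for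
`N = 1`: a normalised Hecke eigenform for `SL₂(ℤ)`) with root number `+1`. Suppose that, with `n ≥ 0`,
`N = p^n` with `p` one of `2, 3, 5, 7, 11, 13`, or `N = 4 p^n` with `p` one of `5, 7`, or `N = q p^n` with
`(q, p)` one of `(2, 3), (2, 5), (2, 7), (3, 5), (3, 7), (5, 3), (7, 5)` and `f | W_q = f`. Then the central value `L(1/2, f)`
is not zero (`LanK hk f` is the entire continuation of the `L`-series of `f` in the analytic
normalisation). -/
theorem result (N : ℕ) [NeZero N] (k : ℤ) (hk : 0 < k) (heven : Even k) (h4 : 4 ≤ k)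
    (f : CuspForm (G0 N) k) (hf : IsNewN f) (hε : RootOneK hk f)
    (hN : ∃ n : ℕ, (∃ p ∈ ({2, 3, 5, 7, 11, 13} : Finset ℕ), N = p ^ n) ∨
      (∃ p ∈ ({5, 7} : Finset ℕ), N = 4 * p ^ n) ∨
      (∃ q p : ℕ, (q, p) ∈ ({(2, 3), (2, 5), (2, 7), (3, 5), (3, 7), (5, 3), (7, 5)} : Finset (ℕ × ℕ)) ∧
        N = q * p ^ n ∧ ALPlus q (p ^ n) f)) :
    Differentiable ℂ (LanK hk f) ∧
    (∀ s : ℂ, 3 / 2 < s.re →
      HasSum (fun m : ℕ => fcK f m / (m : ℂ) ^ (((k : ℂ) - 1) / 2) / (m : ℂ) ^ s)
        (LanK hk f s)) ∧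
    LanK hk f (1 / 2) ≠ 0 := by
  have ls := hKLs N inferInstance k hk (by omega) f
  refine ⟨ls.1, ls.2, ?_⟩
  obtain ⟨n, h | h | h⟩ := hN
  · obtain ⟨p, hp, rfl⟩ := h
    have hT : p.Prime ∧ Pool.Agent.Helper28.WK.TAp p := by
      simp only [Finset.mem_insert, Finset.mem_singleton] at hp
      rcases hp with rfl | rfl | rfl | rfl | rfl | rfl
      · exact Pool.Agent.Helper79.TLN.tapAll 2 (by decide)
      · exact Pool.Agent.Helper79.TLN.tapAll 3 (by decide)
      · exact Pool.Agent.Helper79.TLN.tapAll 5 (by decide)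
      · exact Pool.Agent.Helper79.TLN.tapAll 7 (by decide)
      · exact ⟨by norm_num, Pool.Agent.Helper79.PE.tap11⟩
      · exact ⟨by norm_num, Pool.Agent.Helper79.PE.tap13⟩
    exact Pool.Agent.Helper79.PE.valPowOf p hT.1 hT.2 n k hk heven h4 inferInstance f hf hε
  · obtain ⟨p, hp, rfl⟩ := h
    simp only [Finset.mem_insert, Finset.mem_singleton] at hp
    rcases hp with rfl | rfl
    · exact Pool.Agent.Helper79.TLN.valFour 5 Nat.prime_five (by norm_num) Pool.Agent.Helper79.TL.tae5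
        n k hk heven h4 inferInstance f hf hε
    · exact Pool.Agent.Helper79.TLN.valFour 7 (by norm_num) (by norm_num) Pool.Agent.Helper14.TL7.ta7
        n k hk heven h4 inferInstance f hf hε
  · obtain ⟨q, p, hp, rfl, hal⟩ := h
    simp only [Finset.mem_insert, Finset.mem_singleton, Prod.mk.injEq] at hp
    rcases hp with ⟨rfl, rfl⟩ | ⟨rfl, rfl⟩ | ⟨rfl, rfl⟩ | ⟨rfl, rfl⟩ | ⟨rfl, rfl⟩ | ⟨rfl, rfl⟩ | ⟨rfl, rfl⟩
    · exact Pool.Agent.Helper79.THE.valTwo 3 Nat.prime_three (by norm_num) Pool.Agent.Helper79.THE.tah3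
        n k hk heven h4 inferInstance f hf hal hε
    · exact Pool.Agent.Helper79.THE.valTwo 5 Nat.prime_five (by norm_num) Pool.Agent.Helper79.THE.tah5
        n k hk heven h4 inferInstance f hf hal hε
    · exact Pool.Agent.Helper79.THE.valTwo 7 (by norm_num) (by norm_num) Pool.Agent.Helper79.THE.tah7
        n k hk heven h4 inferInstance f hf hal hε
    · exact Pool.Agent.Helper79.TKE.valThree 5 Nat.prime_five (by norm_num) Pool.Agent.Helper79.TKE.tahK5
        n k hk heven h4 inferInstance f hf hal hε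
    · exact Pool.Agent.Helper79.TKE.valThree 7 (by norm_num) (by norm_num) Pool.Agent.Helper79.TKE.tahK7
        n k hk heven h4 inferInstance f hf hal hε
    · exact Pool.Agent.Helper79.T5E.valFive 3 Nat.prime_three (by norm_num) Pool.Agent.Helper79.T5E.tahQ3
        n k hk heven h4 inferInstance f hf hal hε
    · exact Pool.Agent.Helper79.T7E.valSeven 5 Nat.prime_five (by norm_num) Pool.Agent.Helper79.T7E.tahS5
        n k hk heven h4 inferInstance f hf hal hε

end Pool.Agent.Results.MP_3c9520_nt.AllWeightsPrimePowers
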