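import Pool.Agent.Helper76.TX.Asm

/-!
# Quadratic twists of the newforms of level `2^n`: uniform nonvanishing of the central values
-/

set_option autoImplicit false

open UpperHalfPlane CongruenceSubgroup
open scoped MatrixGroups

namespace Pool.Agent.Results.MP_3c9520_nt.QuadraticTwistsUniform

/-- `Γ₀(N)` as a subgroup of `GL₂(ℝ)`. -/
abbrev Gam (N : ℕ) : Subgroup (GL (Fin 2) ℝ) := (Gamma0 N : Subgroup (GL (Fin 2) ℝ))

/-- The Fourier coefficient `a_m(f)`, where `f(z) = ∑ a_m(f) e^{2 π i m z}`. -/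
noncomputable def coef {N : ℕ} (f : CuspForm (Gam N) 2) (m : ℕ) : ℂ :=
  (UpperHalfPlane.qExpansion (1 : ℝ) (f : ℍ → ℂ)).coeff m

/-- `f` is an eigenform of the Hecke operator `T_p` of weight `2` (`p` a prime not dividing the
level) with eigenvalue `lam`: `T_p` maps `∑ a_m q^m` to `∑ (a_{pm} + p a_{m/p}) q^m`. -/
def IsEigen {N : ℕ} (f : CuspForm (Gam N) 2) (p : ℕ) (lam : ℂ) : Prop :=
  ∀ m : ℕ, coef f (p * m) + (if p ∣ m then (p : ℂ) * coef f (m / p) else 0) = lam * coef f m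

/-- `f` is a newform of weight `2`, level `2^n` and trivial character: it is a cusp form on
`Γ₀(2^n)` with first coefficient `1`, an eigenform of all Hecke operators `T_p`, `p` odd, and
of `U_2`, and its eigenvalues at the odd primes do not come from the lower level `2^(n-1)`
(no nonzero cusp form on `Γ₀(2^(n-1))` has the same eigenvalues at all odd primes). -/
structure IsNewform (n : ℕ) (f : CuspForm (Gam (2 ^ n)) 2) : Prop where
  normalised : coef f 1 = 1
  hecke : ∀ p : ℕ, p.Prime → p ≠ 2 → IsEigen f p (coef f p)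
  hecke_two : ∀ m : ℕ, coef f (2 * m) = coef f 2 * coef f m
  new : ∀ g : CuspForm (Gam (2 ^ (n - 1))) 2,
    (∀ p : ℕ, p.Prime → p ≠ 2 → IsEigen g p (coef f p)) → g = 0

/-- The completed function `Λ(s,f) = (√N/2π)^s Γ(s + 1/2) L(s,f)` of a form of level `N`; here
`L(s,f)` is the entire continuation of `∑ a_m(f) m^{-1/2} m^{-s}`, Mathlib's `L`-function of the
modular form `f` (whose centre is `1`) at the point `s + 1/2`. -/
noncomputable def Lam {N : ℕ} [NeZero N] (f : CuspForm (Gam N) 2) (s : ℂ) : ℂ :=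
  ((Real.sqrt N / (2 * Real.pi) : ℝ) : ℂ) ^ s * Complex.Gamma (s + 1 / 2) *
    ModularForm.L (k := 2) two_pos f (s + 1 / 2)

/-- The root number of `f` is `w`: `Λ(s,f) = w Λ(1-s,f)` in the strip `-1/2 < Re s < 3/2`, in
which the factors `Γ(s + 1/2)` and `Γ(3/2 - s)` have no poles. -/
def RootNumber {N : ℕ} [NeZero N] (w : ℤ) (f : CuspForm (Gam N) 2) : Prop :=
  ∀ s : ℂ, -1 / 2 < s.re → s.re < 3 / 2 → Lam f s = (w : ℂ) * Lam f (1 - s)

/-- `L` is the `L`-function of the twist of `f` by the quadratic character `χ_d = (·/d)` (Jacobi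
symbol) in the analytic normalisation (centre `1/2`): an entire function with
`L(s) = ∑ χ_d(m) a_m(f) m^{-1/2} m^{-s}` for `Re s > 3/2`. -/
def IsTwistL {N : ℕ} (d : ℕ) (f : CuspForm (Gam N) 2) (L : ℂ → ℂ) : Prop :=
  Differentiable ℂ L ∧ ∀ s : ℂ, 3 / 2 < s.re →
    HasSum (fun m : ℕ => ((jacobiSym (m : ℤ) d : ℤ) : ℂ) * coef f m / (m : ℂ) ^ (1 / 2 : ℂ) /
      (m : ℂ) ^ s) (L s)

private theorem newform_iff (n : ℕ) (f : CuspForm (Gam (2 ^ n)) 2) :
    IsNewform n f ↔ Pool.Agent.Helper14.CV.IsNewform n f :=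
  ⟨fun h => ⟨h.1, h.2, h.3, h.4⟩, fun h => ⟨h.1, h.2, h.3, h.4⟩⟩

private theorem one_twist (d n : ℕ) (hd : Odd d) (hsq : Squarefree d) (hn : 5 ≤ n) :
    (∀ f : CuspForm (Gam (2 ^ n)) 2, ∃ L : ℂ → ℂ, IsTwistL d f L) ∧
    {f : CuspForm (Gam (2 ^ n)) 2 | IsNewform n f ∧ RootNumber (jacobiSym (-(2 ^ n)) d) f ∧
      ∃ L : ℂ → ℂ, IsTwistL d f L ∧ L (1 / 2) = 0}.encard ≤
    ((64 * d * (Nat.log 2 d + 2) * 2 ^ (n / 2) : ℕ) : ℕ∞) := by
  obtain ⟨h1, h2⟩ := Pool.Agent.Helper76.TX.asmTud d n hd hsq hn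
  refine ⟨fun f => h1 f, ?_⟩
  refine le_trans (Set.encard_le_encard ?_) h2
  rintro f ⟨hf, hw, hL⟩
  exact ⟨(newform_iff n f).1 hf, hw, hL⟩

/-- Let `n ≥ 5` and let `S` be a finite set of odd squarefree numbers. For all but at most
`64 · 2^(n/2) · ∑_{d ∈ S} d (log₂ d + 2)` of the newforms `f` of weight `2` and level `2^n` the following
holds: for every `d` in `S` such that the root number of `f` is `χ_d(-2^n)`, in other words such that
the twist of `f` by the quadratic character `χ_d = (·/d)` has root number `+1`, the central value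
`L(1/2, f × χ_d)` is not zero. (First part: the twisted `L`-series have entire continuations.) -/
theorem result (n : ℕ) (hn : 5 ≤ n) (S : Finset ℕ) (hS : ∀ d ∈ S, Odd d ∧ Squarefree d) :
    (∀ d ∈ S, ∀ f : CuspForm (Gam (2 ^ n)) 2, ∃ L : ℂ → ℂ, IsTwistL d f L) ∧
    {f : CuspForm (Gam (2 ^ n)) 2 | IsNewform n f ∧ ∃ d ∈ S,
      RootNumber (jacobiSym (-(2 ^ n)) d) f ∧
        ∃ L : ℂ → ℂ, IsTwistL d f L ∧ L (1 / 2) = 0}.encard ≤
    ((64 * 2 ^ (n / 2) * ∑ d ∈ S, d * (Nat.log 2 d + 2) : ℕ) : ℕ∞) := by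
  classical
  refine ⟨fun d hd f => (one_twist d n (hS d hd).1 (hS d hd).2 hn).1 f, ?_⟩
  have hsub : {f : CuspForm (Gam (2 ^ n)) 2 | IsNewform n f ∧ ∃ d ∈ S,
      RootNumber (jacobiSym (-(2 ^ n)) d) f ∧
        ∃ L : ℂ → ℂ, IsTwistL d f L ∧ L (1 / 2) = 0} ⊆
      ⋃ d ∈ S, {f : CuspForm (Gam (2 ^ n)) 2 | IsNewform n f ∧
        RootNumber (jacobiSym (-(2 ^ n)) d) f ∧
          ∃ L : ℂ → ℂ, IsTwistL d f L ∧ L (1 / 2) = 0} := by
    rintro f ⟨hf, d, hd, hw, hL⟩
    rw [Set.mem_iUnion₂]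
    exact ⟨d, hd, hf, hw, hL⟩
  refine (Set.encard_le_encard hsub).trans ?_
  clear hsub
  induction S using Finset.induction_on with
  | empty => simp
  | insert d s hds ih =>
    rw [Finset.set_biUnion_insert, Finset.sum_insert hds]
    refine (Set.encard_union_le _ _).trans ?_
    have h1 := ih (fun x hx => hS x (Finset.mem_insert_of_mem hx))
    obtain ⟨hd1, hd2⟩ := hS d (Finset.mem_insert_self _ _)
    have h2 := (one_twist d n hd1 hd2 hn).2
    refine (add_le_add h2 h1).trans ?_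
    rw [← Nat.cast_add]
    exact_mod_cast (le_of_eq (by ring))

end Pool.Agent.Results.MP_3c9520_nt.QuadraticTwistsUniform
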