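import Pool.Agent.Helper28.TK.Gen
import Pool.Agent.Helper92.TN.M_Lev1
import Pool.Agent.Helper76.TK2.Fin
import Pool.Agent.Helper14.TK.M_W2

/-!
# Quadratic twists of the newforms of every even weight and level a power of two
-/

set_option autoImplicit false

open UpperHalfPlane CongruenceSubgroup
open scoped MatrixGroups

namespace Pool.Agent.Results.MP_3c9520_nt.TwistedCentralValues

/-- `Γ₀(N)` as a subgroup of `GL₂(ℝ)`. -/
abbrev Gam (N : ℕ) : Subgroup (GL (Fin 2) ℝ) := (Gamma0 N : Subgroup (GL (Fin 2) ℝ))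

/-- The Fourier coefficient `a_m(f)`, where `f(z) = ∑ a_m(f) e^{2 π i m z}`. -/
noncomputable def coef {N : ℕ} {k : ℤ} (f : CuspForm (Gam N) k) (m : ℕ) : ℂ :=
  (UpperHalfPlane.qExpansion (1 : ℝ) (f : ℍ → ℂ)).coeff m

/-- `f` is an eigenform of the Hecke operator `T_l` of weight `k` (`l` a prime not dividing the level)
with eigenvalue `t`: `T_l` maps `∑ a_m q^m` to `∑ (a_{lm} + l^(k-1) a_{m/l}) q^m`. -/
def IsEigen {N : ℕ} {k : ℤ} (f : CuspForm (Gam N) k) (l : ℕ) (t : ℂ) : Prop :=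
  ∀ m : ℕ, coef f (l * m) + (if l ∣ m then (l : ℂ) ^ (k - 1) * coef f (m / l) else 0) =
    t * coef f m

/-- `f` is a newform of weight `k`, level `2^n` and trivial character: it is a cusp form on `Γ₀(2^n)`
with first coefficient `1`, an eigenform of all Hecke operators `T_l`, `l ≠ 2` prime, and of `T_2`
(if `n = 0`) or `U_2` (if `n ≥ 1`), and, if `n ≥ 1`, its eigenvalues at the primes `l ≠ 2` do not
come from the lower level `2^(n-1)` (no nonzero cusp form on `Γ₀(2^(n-1))` has the same eigenvalues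
at all primes `l ≠ 2`). For `n = 0`: `f` is a normalised Hecke eigenform for `SL₂(ℤ)`. -/
structure IsNew (n : ℕ) {k : ℤ} (f : CuspForm (Gam (2 ^ n)) k) : Prop where
  normalised : coef f 1 = 1
  hecke : ∀ l : ℕ, l.Prime → l ≠ 2 → IsEigen f l (coef f l)
  hecke_one : n = 0 → IsEigen f 2 (coef f 2)
  hecke_two : n ≠ 0 → ∀ m : ℕ, coef f (2 * m) = coef f 2 * coef f m
  new : n ≠ 0 → ∀ g : CuspForm (Gam (2 ^ (n - 1))) k,
    (∀ l : ℕ, l.Prime → l ≠ 2 → IsEigen g l (coef f l)) → g = 0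

/-- The completed function `Λ(s,f) = (√N/2π)^s Γ(s + (k-1)/2) L(s,f)` of a form of level `N`; here
`L(s,f)` is the entire continuation of `∑ a_m(f) m^{-(k-1)/2} m^{-s}`, Mathlib's `L`-function of the
modular form `f` (whose centre is `k/2`) at the point `s + (k-1)/2`. -/
noncomputable def Lam {N : ℕ} [NeZero N] {k : ℤ} (hk : 0 < k) (f : CuspForm (Gam N) k)
    (s : ℂ) : ℂ :=
  ((Real.sqrt N / (2 * Real.pi) : ℝ) : ℂ) ^ s * Complex.Gamma (s + (k - 1) / 2) *
    ModularForm.L hk f (s + (k - 1) / 2)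

/-- The root number of `f` is `w`: `Λ(s,f) = w Λ(1-s,f)` in the strip `-(k-1)/2 < Re s < (k+1)/2`,
in which neither Gamma factor has a pole. -/
def HasRoot {N : ℕ} [NeZero N] {k : ℤ} (w : ℤ) (hk : 0 < k) (f : CuspForm (Gam N) k) : Prop :=
  ∀ s : ℂ, -((k : ℝ) - 1) / 2 < s.re → s.re < ((k : ℝ) + 1) / 2 →
    Lam hk f s = (w : ℂ) * Lam hk f (1 - s)

/-- `L` is the `L`-function of the twist of `f` by the quadratic character `m ↦ (m/D)` in the analytic
normalisation (centre `1/2`): it is entire and `L(s) = ∑ (m/D) a_m m^(-(k-1)/2) m^(-s)` for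
`Re s > 3/2`. -/
def IsTwistL {N : ℕ} {k : ℤ} (D : ℕ) (f : CuspForm (Gam N) k) (L : ℂ → ℂ) : Prop :=
  Differentiable ℂ L ∧ ∀ s : ℂ, 3 / 2 < s.re →
    HasSum (fun m : ℕ => ((jacobiSym (m : ℤ) D : ℤ) : ℂ) * coef f m /
      (m : ℂ) ^ (((k : ℂ) - 1) / 2) / (m : ℂ) ^ s) (L s)

/-- The conductors of the twists: primes `3` modulo `8`, the prime `7`, and `5 l` with a prime `l = 3`
modulo `8`. The character `m ↦ (m/D)` is the character of the field `ℚ(√-D)`. -/
def Conductor (D : ℕ) : Prop :=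
  (D.Prime ∧ D % 8 = 3) ∨ D = 7 ∨ ∃ l : ℕ, l.Prime ∧ l % 8 = 3 ∧ D = 5 * l

private theorem new_iff (n : ℕ) {k : ℤ} (f : CuspForm (Gam (2 ^ n)) k) :
    IsNew n f ↔ Pool.Agent.Helper28.LV.IsNewformA 2 n f :=
  ⟨fun h => ⟨h.1, h.2, h.3, h.4, h.5⟩, fun h => ⟨h.1, h.2, h.3, h.4, h.5⟩⟩

private theorem root_iff {N : ℕ} [NeZero N] {k : ℤ} (w : ℤ) (hk : 0 < k)
    (f : CuspForm (Gam N) k) : HasRoot w hk f ↔ Pool.Agent.Helper28.TK.RootNumK w hk f :=
  Iff.rfl

private theorem twist_iff {N : ℕ} {k : ℤ} (D : ℕ) (f : CuspForm (Gam N) k) (L : ℂ → ℂ) :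
    IsTwistL D f L ↔ Pool.Agent.Helper28.TK.IsTwK D f L :=
  Iff.rfl

private theorem cond_iff (D : ℕ) : Conductor D ↔ Pool.Agent.Helper14.TT.Okd D :=
  Iff.rfl

private theorem cond_odd {D : ℕ} (h : Conductor D) : Odd D := by
  rw [Nat.odd_iff]
  rcases h with ⟨_, h⟩ | h | ⟨l, _, hl, rfl⟩ <;> omega

private theorem cond_sq {D : ℕ} (h : Conductor D) : Squarefree D := by
  rcases h with ⟨hp, _⟩ | rfl | ⟨l, hp, hl, rfl⟩
  · exact hp.prime.squarefree
  · exact Nat.prime_seven.prime.squarefree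
  · have hcop : Nat.Coprime 5 l := by
      rw [Nat.coprime_primes Nat.prime_five hp]
      rintro rfl
      omega
    exact (Nat.squarefree_mul hcop).2 ⟨Nat.prime_five.prime.squarefree, hp.prime.squarefree⟩

private theorem cond_cop {D : ℕ} (h : Conductor D) : Nat.Coprime 2 D :=
  Nat.coprime_two_left.2 (cond_odd h)

private theorem cond_sign {D : ℕ} (h : Conductor D) : jacobiSym (-1) D = -1 := by
  have hD : D % 4 = 3 := by
    rcases h with ⟨_, h⟩ | h | ⟨l, _, hl, rfl⟩ <;> omega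
  rw [jacobiSym.at_neg_one (cond_odd h), ZMod.χ₄_nat_three_mod_four hD]

private theorem sign_eq {D n : ℕ} {w : ℤ} (hD : Conductor D) (h : w * jacobiSym 2 D ^ n = -1) :
    w = jacobiSym (-1) D * jacobiSym 2 D ^ n := by
  have h2 : Int.gcd 2 D = 1 := by
    simpa [Int.gcd] using cond_cop hD
  have hs : jacobiSym 2 D ^ n * jacobiSym 2 D ^ n = 1 := by
    rcases jacobiSym.eq_one_or_neg_one h2 with h | h
    · rw [h]; simp
    · rw [h, ← mul_pow]; simp
  rw [cond_sign hD]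
  calc w = w * (jacobiSym 2 D ^ n * jacobiSym 2 D ^ n) := by rw [hs, mul_one]
    _ = w * jacobiSym 2 D ^ n * jacobiSym 2 D ^ n := by ring
    _ = -1 * jacobiSym 2 D ^ n := by rw [h]

/-- Weight `2`. -/
private theorem two (k : ℤ) (hk2 : k = 2) (hk : 0 < k) (n D : ℕ) (hn : 3 ≤ n)
    (hD : Conductor D) (f : CuspForm (Gam (2 ^ n)) k) (hf : IsNew n f) (w : ℤ)
    (hw : HasRoot w hk f) (h : w * jacobiSym 2 D ^ n = -1) (L : ℂ → ℂ)
    (hL : IsTwistL D f L) : L (1 / 2) ≠ 0 := by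
  subst hk2
  exact (Pool.Agent.Helper14.TK.w2 n D hn hD f ((new_iff n f).1 hf) w ((root_iff w hk f).1 hw)
    h).2 L ((twist_iff D f L).1 hL)

private theorem gen (n : ℕ) : Pool.Agent.Helper28.TK.GenP 2 n := by
  rcases Nat.lt_or_ge n 2 with h | h
  · interval_cases n
    · exact Pool.Agent.Helper28.TK.gen0 2 Nat.prime_two
    · exact Pool.Agent.Helper92.TN.genP1 2 Nat.prime_two
  · exact Pool.Agent.Helper28.TK.gen2 2 Nat.prime_two n h

/-- Let `k ≥ 2` be even and `n ≥ 0` (`n ≥ 3` if `k = 2`). Every newform `f` of weight `k`, level `2^n`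
and trivial character (`n = 0`: every normalised Hecke eigenform of level one) has a root number
`w = 1` or `w = -1`; its twists by the characters `(·/D)`, `D` odd and squarefree, have an entire
`L`-function; and `L(1/2, f × (·/D)) ≠ 0` for every `D` which is a prime `3` modulo `8`, or `7`, or
`5 l` with a prime `l = 3` modulo `8`, with `w (2/D)^n = -1` (the root number of the twist is `+1`). -/
theorem result (k : ℤ) (hk : 0 < k) (n : ℕ) (f : CuspForm (Gam (2 ^ n)) k) (heven : Even k)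
    (h2 : k = 2 → 3 ≤ n) (hf : IsNew n f) :
    ∃ w : ℤ, (w = 1 ∨ w = -1) ∧ HasRoot w hk f ∧
      (∀ D : ℕ, Odd D → Squarefree D → ∃ L : ℂ → ℂ, IsTwistL D f L) ∧
      ∀ D : ℕ, Conductor D → w * jacobiSym 2 D ^ n = -1 →
        ∀ L : ℂ → ℂ, IsTwistL D f L → L (1 / 2) ≠ 0 := by
  obtain ⟨A, rfl⟩ : ∃ A : ℕ, k = 2 * A + 2 := by
    obtain ⟨r, hr⟩ := heven
    exact ⟨(r - 1).toNat, by omega⟩
  have hne : NeZero (2 ^ n) := ⟨pow_ne_zero n two_ne_zero⟩
  rcases Nat.eq_zero_or_pos A with rfl | hA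
  · have hn : 3 ≤ n := h2 (by norm_num)
    have hf' := (new_iff n f).1 hf
    obtain ⟨w, hw, hR, -, -, -⟩ := Pool.Agent.Helper28.TK.krn 2 n hne 0 hk f Nat.prime_two
      (by omega) (hf'.toK (by omega))
    refine ⟨w, hw, (root_iff w hk f).2 hR, fun D hD hsq => ?_, ?_⟩
    · obtain ⟨L, hL⟩ := Pool.Agent.Helper28.TK.isTwK_exists Pool.Agent.Helper28.TK.jac
        Pool.Agent.Helper28.TK.tle hne 0 D hD hsq f
      exact ⟨L, (twist_iff D f L).2 hL⟩
    · intro D hD h L hL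
      exact two _ (by norm_num) hk n D hn hD f hf w ((root_iff w hk f).2 hR) h L hL
  · obtain ⟨w, hw, hR, hE, hN⟩ := gen n A hne hk f hA ((new_iff n f).1 hf)
    refine ⟨w, hw, (root_iff w hk f).2 hR, fun D hD hsq => ?_, ?_⟩
    · obtain ⟨L, hL⟩ := hE D hD hsq
      exact ⟨L, (twist_iff D f L).2 hL⟩
    · intro D hD h L hL
      exact hN D (cond_odd hD) (cond_sq hD) (cond_cop hD)
        (Pool.Agent.Helper76.TK2.taD ((cond_iff D).1 hD)) (sign_eq hD h) L ((twist_iff D f L).1 hL)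

end Pool.Agent.Results.MP_3c9520_nt.TwistedCentralValues
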