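import Pool.Agent.Helper28.TK.Gen
import Pool.Agent.Helper92.TN.M_Lev1
import Pool.Agent.Helper28.T3.Asm
import Pool.Agent.Helper63.T3.M_QFD
import Pool.Agent.Helper56.T3E.M_TDS

/-!
# Quadratic twists of the newforms of every even weight `k ≥ 4` and level a power of three
-/

set_option autoImplicit false

open UpperHalfPlane CongruenceSubgroup
open scoped MatrixGroups NumberField

namespace Pool.Agent.Results.MP_3c9520_nt.WeakGoldfeldEveryWeight

/-- `Γ₀(N)` as a subgroup of `GL₂(ℝ)`. -/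
abbrev Gam (N : ℕ) : Subgroup (GL (Fin 2) ℝ) := (Gamma0 N : Subgroup (GL (Fin 2) ℝ))

/-- The Fourier coefficient `a_m(f)`, where `f(z) = ∑ a_m(f) e^{2 π i m z}`. -/
noncomputable def coef {N : ℕ} {k : ℤ} (f : CuspForm (Gam N) k) (m : ℕ) : ℂ :=
  (UpperHalfPlane.qExpansion (1 : ℝ) (f : ℍ → ℂ)).coeff m

/-- `f` is an eigenform of the Hecke operator `T_l` of weight `k` (`l` a prime not dividing the level)
with eigenvalue `t`: `T_l` maps `∑ a_m q^m` to `∑ (a_{lm} + l^(k-1) a_{m/l}) q^m`. -/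
def IsEigen {N : ℕ} {k : ℤ} (f : CuspForm (Gam N) k) (l : ℕ) (t : ℂ) : Prop :=
  ∀ m : ℕ, coef f (l * m) + (if l ∣ m then (l : ℂ) ^ (k - 1) * coef f (m / l) else 0) =
    t * coef f m

/-- `f` is a newform of weight `k`, level `3^n` and trivial character: it is a cusp form on `Γ₀(3^n)`
with first coefficient `1`, an eigenform of all Hecke operators `T_l`, `l ≠ 3` prime, and of `T_3`
(if `n = 0`) or `U_3` (if `n ≥ 1`), and, if `n ≥ 1`, its eigenvalues at the primes `l ≠ 3` do not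
come from the lower level `3^(n-1)` (no nonzero cusp form on `Γ₀(3^(n-1))` has the same eigenvalues
at all primes `l ≠ 3`). For `n = 0`: `f` is a normalised Hecke eigenform for `SL₂(ℤ)`. -/
structure IsNew (n : ℕ) {k : ℤ} (f : CuspForm (Gam (3 ^ n)) k) : Prop where
  normalised : coef f 1 = 1
  hecke : ∀ l : ℕ, l.Prime → l ≠ 3 → IsEigen f l (coef f l)
  hecke_one : n = 0 → IsEigen f 3 (coef f 3)
  hecke_three : n ≠ 0 → ∀ m : ℕ, coef f (3 * m) = coef f 3 * coef f m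
  new : n ≠ 0 → ∀ g : CuspForm (Gam (3 ^ (n - 1))) k,
    (∀ l : ℕ, l.Prime → l ≠ 3 → IsEigen g l (coef f l)) → g = 0

/-- The completed function `Λ(s,f) = (√N/2π)^s Γ(s + (k-1)/2) L(s,f)` of a form of level `N`; here
`L(s,f)` is the entire continuation of `∑ a_m(f) m^{-(k-1)/2} m^{-s}`, Mathlib's `L`-function of the
modular form `f` (whose centre is `k/2`) at the point `s + (k-1)/2`. -/
noncomputable def Lam {N : ℕ} [NeZero N] {k : ℤ} (hk : 0 < k) (f : CuspForm (Gam N) k)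
    (s : ℂ) : ℂ :=
  ((Real.sqrt N / (2 * Real.pi) : ℝ) : ℂ) ^ s * Complex.Gamma (s + (k - 1) / 2) *
    ModularForm.L hk f (s + (k - 1) / 2)

/-- The root number of `f` is `w`: `Λ(s,f) = w Λ(1-s,f)` in the strip `-(k-1)/2 < Re s < (k+1)/2`,
in which neither Gamma factor has a pole. -/
def HasRoot {N : ℕ} [NeZero N] {k : ℤ} (w : ℤ) (hk : 0 < k) (f : CuspForm (Gam N) k) : Prop :=
  ∀ s : ℂ, -((k : ℝ) - 1) / 2 < s.re → s.re < ((k : ℝ) + 1) / 2 →
    Lam hk f s = (w : ℂ) * Lam hk f (1 - s)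

/-- `L` is the `L`-function of the twist of `f` by the quadratic character `m ↦ (m/D)` in the analytic
normalisation (centre `1/2`): it is entire and `L(s) = ∑ (m/D) a_m m^(-(k-1)/2) m^(-s)` for
`Re s > 3/2`. -/
def IsTwistL {N : ℕ} {k : ℤ} (D : ℕ) (f : CuspForm (Gam N) k) (L : ℂ → ℂ) : Prop :=
  Differentiable ℂ L ∧ ∀ s : ℂ, 3 / 2 < s.re →
    HasSum (fun m : ℕ => ((jacobiSym (m : ℤ) D : ℤ) : ℂ) * coef f m /
      (m : ℂ) ^ (((k : ℂ) - 1) / 2) / (m : ℂ) ^ s) (L s)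

/-- `D` is good of sign `e`: `D` is squarefree and

* `e = -1`, `D = 7` modulo `12` and the class number of the quadratic field of discriminant `-D` is
  not divisible by `3`, or
* `e = 1`, `1 < D`, `D = 5` modulo `12` and the class number of the quadratic field of discriminant
  `-3D` is not divisible by `3`. -/
def Good (e : ℤ) (D : ℕ) : Prop :=
  Squarefree D ∧ ∃ (K : Type) (_ : Field K) (_ : NumberField K),
    Module.finrank ℚ K = 2 ∧ ¬ 3 ∣ NumberField.classNumber K ∧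
      ((e = -1 ∧ D % 12 = 7 ∧ NumberField.discr K = -(D : ℤ)) ∨
        (e = 1 ∧ 1 < D ∧ D % 12 = 5 ∧ NumberField.discr K = -(3 * D : ℤ)))

private theorem new_iff (n : ℕ) {k : ℤ} (f : CuspForm (Gam (3 ^ n)) k) :
    IsNew n f ↔ Pool.Agent.Helper28.LV.IsNewformA 3 n f :=
  ⟨fun h => ⟨h.1, h.2, h.3, h.4, h.5⟩, fun h => ⟨h.1, h.2, h.3, h.4, h.5⟩⟩

private theorem root_iff {N : ℕ} [NeZero N] {k : ℤ} (w : ℤ) (hk : 0 < k)
    (f : CuspForm (Gam N) k) : HasRoot w hk f ↔ Pool.Agent.Helper28.TK.RootNumK w hk f :=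
  Iff.rfl

private theorem twist_iff {N : ℕ} {k : ℤ} (D : ℕ) (f : CuspForm (Gam N) k) (L : ℂ → ℂ) :
    IsTwistL D f L ↔ Pool.Agent.Helper28.TK.IsTwK D f L :=
  Iff.rfl

open Pool.Agent.Helper28.T3 in
private theorem finrank_of {D : ℕ} {K : Type} [Field K] [NumberField K] (q : QF D K) :
    Module.finrank ℚ K = 2 := by
  rw [← NumberField.RingOfIntegers.rank, Module.finrank_eq_card_basis q.b, Fintype.card_fin]

open Pool.Agent.Helper28.T3 in
private theorem good_neg {D : ℕ} (hsq : Squarefree D) (hmod : D % 24 = 19)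
    (h3 : ¬ (3 : ℤ) ∣ TD D) : Good (-1) D := by
  refine ⟨hsq, ?_⟩
  obtain ⟨K, iF, iN, ⟨q⟩⟩ := Pool.Agent.Helper47.T3.hQFE D hsq (by omega)
  refine ⟨K, iF, iN, finrank_of q, ?_, Or.inl ⟨rfl, by omega, Pool.Agent.Helper36.T3.hDSC D K q⟩⟩
  intro h
  have hc := cnf D K q hsq (by omega) (by omega)
  apply h3
  rw [← dvd_abs, ← hc]
  exact Dvd.dvd.mul_left (by exact_mod_cast h) _

open Pool.Agent.Helper28.T3 in
private theorem good_pos {D : ℕ} (h1 : 1 < D) (hsq : Squarefree D) (hmod : D % 24 = 17)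
    (h9 : ¬ (9 : ℤ) ∣ TD (3 * D)) : Good 1 D := by
  refine ⟨hsq, ?_⟩
  have hcop : Nat.Coprime 3 D := by
    rw [Nat.Prime.coprime_iff_not_dvd Nat.prime_three]
    omega
  have hsq3 : Squarefree (3 * D) := (Nat.squarefree_mul hcop).2 ⟨Nat.prime_three.squarefree, hsq⟩
  obtain ⟨K, iF, iN, ⟨q⟩⟩ := Pool.Agent.Helper47.T3.hQFE (3 * D) hsq3 (by omega)
  refine ⟨K, iF, iN, finrank_of q, ?_, Or.inr ⟨rfl, h1, by omega, ?_⟩⟩
  · intro h
    have hc := cnf (3 * D) K q hsq3 (by omega) (by omega)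
    apply h9
    rw [← dvd_abs, ← hc]
    have h' : (3 : ℤ) ∣ ((NumberField.classNumber K : ℕ) : ℤ) := by exact_mod_cast h
    obtain ⟨k, hk⟩ := h'
    exact ⟨D * k, by rw [hk]; push_cast; ring⟩
  · rw [Pool.Agent.Helper36.T3.hDSC (3 * D) K q]
    push_cast
    ring

private theorem card_le {N : ℕ} {f : Set ℕ} (G : Finset ℕ) (hf : ∀ D ∈ f, D ≤ N)
    (hG : ∀ D ∈ G, D ∈ f) : (G.card : ℝ) ≤ (f.ncard : ℝ) := by
  have hfin : f.Finite := (Set.finite_Iic N).subset fun D hD => hf D hD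
  have h := Set.ncard_le_ncard (s := (G : Set ℕ)) (t := f) (fun D hD => hG D hD) hfin
  rw [Set.ncard_coe_finset] at h
  exact_mod_cast h

open Pool.Agent.Helper28.T3 in
private theorem count : ∃ N0 : ℕ, ∀ e : ℤ, (e = 1 ∨ e = -1) → ∀ N : ℕ, N0 ≤ N →
    (N : ℝ) / 100 ≤ ({D : ℕ | D ≤ N ∧ Good e D}.ncard : ℝ) := by
  classical
  obtain ⟨N1, h1⟩ := fin
  obtain ⟨N2, h2⟩ := finq 17 (Or.inr rfl)
  refine ⟨max N1 N2, ?_⟩
  intro e he N hN
  rcases he with rfl | rfl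
  · obtain ⟨G, hG⟩ : ∃ G : Finset ℕ, G = (Finset.range (N + 1)).filter
      fun D => 1 < D ∧ Squarefree D ∧ D % 24 = 17 ∧ ¬ (9 : ℤ) ∣ TD (3 * D) := ⟨_, rfl⟩
    have hGm : ∀ D, D ∈ G ↔ (1 < D ∧ D ≤ N ∧ Squarefree D ∧ D % 24 = 17 ∧
        ¬ (9 : ℤ) ∣ TD (3 * D)) := by
      intro D
      rw [hG, Finset.mem_filter, Finset.mem_range, Nat.lt_succ_iff]
      tauto
    refine (h2 N (le_trans (le_max_right _ _) hN) G hGm).trans (card_le G (fun D hD => hD.1) ?_)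
    intro D hD
    obtain ⟨a0, a1, a2, a3, a4⟩ := (hGm D).1 hD
    exact ⟨a1, good_pos a0 a2 a3 a4⟩
  · obtain ⟨G, hG⟩ : ∃ G : Finset ℕ, G = (Finset.range (N + 1)).filter
      fun D => Squarefree D ∧ D % 24 = 19 ∧ ¬ (3 : ℤ) ∣ TD D := ⟨_, rfl⟩
    have hGm : ∀ D, D ∈ G ↔ (D ≤ N ∧ Squarefree D ∧ D % 24 = 19 ∧ ¬ (3 : ℤ) ∣ TD D) := by
      intro D
      rw [hG, Finset.mem_filter, Finset.mem_range, Nat.lt_succ_iff]
    refine (h1 N (le_trans (le_max_left _ _) hN) G hGm).trans (card_le G (fun D hD => hD.1) ?_)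
    intro D hD
    obtain ⟨a1, a2, a3, a4⟩ := (hGm D).1 hD
    exact ⟨a1, good_neg a2 a3 a4⟩

open Pool.Agent.Helper28.TK in
private theorem adm {e : ℤ} {D : ℕ} (h : Good e D) : Adm e D := by
  obtain ⟨hsq, K, iF, iN, hK, hh, hc⟩ := h
  exact adm_of Pool.Agent.Helper28.T3.cnf Pool.Agent.Helper63.T3.hQFD Pool.Agent.Helper56.T3E.hTDS
    hsq K hK hh hc

open Pool.Agent.Helper28.TK in
private theorem tat {e : ℤ} {D : ℕ} (h : Adm e D) : Pool.Agent.Helper76.TG.TAt 3 D := by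
  rcases h with ⟨-, h⟩ | ⟨-, h⟩
  · exact Pool.Agent.Helper14.TK.taO h
  · exact Pool.Agent.Helper14.TK.taE h

private theorem gen (n : ℕ) : Pool.Agent.Helper28.TK.GenP 3 n := by
  rcases Nat.lt_or_ge n 2 with h | h
  · interval_cases n
    · exact Pool.Agent.Helper28.TK.gen0 3 Nat.prime_three
    · exact Pool.Agent.Helper92.TN.genP1 3 Nat.prime_three
  · exact Pool.Agent.Helper28.TK.gen2 3 Nat.prime_three n h

/-- Let `k ≥ 4` be even and `n ≥ 0`. Every newform `f` of weight `k`, level `3^n` and trivial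
character (`n = 0`: every normalised Hecke eigenform of level one) has a root number `w = 1` or
`w = -1`; its twists by the characters `(·/D)`, `D` odd and squarefree, have an entire `L`-function,
and `L(1/2, f × (·/D)) ≠ 0` for every good `D` of the sign `w (-1)^n`. For both signs `e` and all
`N ≥ N0` at least `N/100` of the numbers `D ≤ N` are good of sign `e`. So the same positive
proportion of the `D` works for all `k`, all `n` and all `f` with the same `w (-1)^n`. -/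
theorem result :
    (∀ (k : ℤ) (hk : 0 < k) (n : ℕ) (f : CuspForm (Gam (3 ^ n)) k), Even k → 4 ≤ k → IsNew n f →
      ∃ w : ℤ, (w = 1 ∨ w = -1) ∧ HasRoot w hk f ∧
        (∀ D : ℕ, Odd D → Squarefree D → ∃ L : ℂ → ℂ, IsTwistL D f L) ∧
        ∀ D : ℕ, Good (w * (-1) ^ n) D → ∀ L : ℂ → ℂ, IsTwistL D f L → L (1 / 2) ≠ 0) ∧
    ∃ N0 : ℕ, ∀ e : ℤ, (e = 1 ∨ e = -1) → ∀ N : ℕ, N0 ≤ N →
      (N : ℝ) / 100 ≤ ({D : ℕ | D ≤ N ∧ Good e D}.ncard : ℝ) := by
  refine ⟨?_, count⟩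
  intro k hk n f heven h4 hf
  obtain ⟨A, rfl⟩ : ∃ A : ℕ, k = 2 * A + 2 := by
    obtain ⟨r, hr⟩ := heven
    exact ⟨(r - 1).toNat, by omega⟩
  obtain ⟨w, hw, hR, hE, hN⟩ := gen n A ⟨pow_ne_zero n three_ne_zero⟩ hk f (by omega)
    ((new_iff n f).1 hf)
  refine ⟨w, hw, (root_iff w hk f).2 hR, fun D hD hsq => ?_, ?_⟩
  · obtain ⟨L, hL⟩ := hE D hD hsq
    exact ⟨L, (twist_iff D f L).2 hL⟩
  · intro D hD L hL
    have hA := adm hD
    exact hN D hA.odd hA.sq hA.cop (tat hA) hA.sign_eq L ((twist_iff D f L).1 hL)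

end Pool.Agent.Results.MP_3c9520_nt.WeakGoldfeldEveryWeight
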